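import Pool.Agent.Lib_MP_62fa17_nt.Defs

/-!
# Generating function of the weighted partition sums of MP_62fa17_nt
-/

namespace Pool.Agent.Lib_MP_62fa17_nt

open Finset

/-- The product over `i = 1, ..., n` of `(w i) ^ λ_i`. -/
def weight (w : ℕ → ℚ) {n : ℕ} (l : Fin n → ℕ) : ℚ :=
  ∏ i ∈ Finset.Icc 1 n, (w i) ^ (part l i)

/-! ### The recursion -/

/-- entries indexed from `0` -/
def ext {N : ℕ} (l : Fin N → ℕ) (j : ℕ) : ℕ := if h : j < N then l ⟨j, h⟩ else 0

/-- the auxiliary sum -/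
def T (w : ℕ → ℚ) (N i k m : ℕ) : ℚ :=
  ∑ l ∈ Finset.Nat.antidiagonalTuple N m,
    ((k.choose (ext l 0) : ℕ) : ℚ) *
      ∏ j ∈ range N, (((ext l j).choose (ext l (j + 1)) : ℕ) : ℚ) * (w (i + j)) ^ (ext l j)

theorem sum_antidiagonalTuple_succ {M : Type*} [AddCommMonoid M] (N m : ℕ)
    (f : (Fin (N + 1) → ℕ) → M) :
    ∑ l ∈ Finset.Nat.antidiagonalTuple (N + 1) m, f l =
      ∑ p ∈ antidiagonal m, ∑ t ∈ Finset.Nat.antidiagonalTuple N p.2, f (Fin.cons p.1 t) := by
  rw [Finset.sum_sigma']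
  symm
  refine Finset.sum_bij' (fun x _ => (Fin.cons x.1.1 x.2 : Fin (N + 1) → ℕ))
    (fun l _ => ⟨(l 0, ∑ i, l (Fin.succ i)), Fin.tail l⟩) ?_ ?_ ?_ ?_ ?_
  · rintro ⟨⟨a, b⟩, t⟩ h
    simp only [mem_sigma, HasAntidiagonal.mem_antidiagonal, Finset.Nat.mem_antidiagonalTuple] at h ⊢
    rw [Fin.sum_univ_succ]
    simp only [Fin.cons_zero, Fin.cons_succ]
    omega
  · intro l h
    simp only [mem_sigma, HasAntidiagonal.mem_antidiagonal, Finset.Nat.mem_antidiagonalTuple] at h ⊢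
    rw [Fin.sum_univ_succ] at h
    exact ⟨h, rfl⟩
  · rintro ⟨⟨a, b⟩, t⟩ h
    simp only [mem_sigma, HasAntidiagonal.mem_antidiagonal, Finset.Nat.mem_antidiagonalTuple] at h
    simp only [Fin.cons_zero, Fin.cons_succ, Fin.tail_cons]
    obtain ⟨-, h2⟩ := h
    subst h2
    rfl
  · intro l h
    simp only [Fin.cons_self_tail]
  · rintro ⟨⟨a, b⟩, t⟩ h
    rfl

theorem ext_cons_zero {N : ℕ} (a : ℕ) (t : Fin N → ℕ) :
    ext (Fin.cons a t : Fin (N + 1) → ℕ) 0 = a := by
  simp [ext]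

theorem ext_cons_succ {N : ℕ} (a : ℕ) (t : Fin N → ℕ) (j : ℕ) :
    ext (Fin.cons a t : Fin (N + 1) → ℕ) (j + 1) = ext t j := by
  unfold ext
  by_cases h : j < N
  · rw [dif_pos h, dif_pos (by omega)]
    exact Fin.cons_succ (α := fun _ => ℕ) a t ⟨j, h⟩
  · rw [dif_neg h, dif_neg (by omega)]

theorem T_succ (w : ℕ → ℚ) (N i k m : ℕ) :
    T w (N + 1) i k m =
      ∑ p ∈ antidiagonal m, ((k.choose p.1 : ℕ) : ℚ) * (w i) ^ p.1 * T w N (i + 1) p.1 p.2 := by
  unfold T
  rw [sum_antidiagonalTuple_succ]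
  refine Finset.sum_congr rfl fun p _ => ?_
  rw [Finset.mul_sum]
  refine Finset.sum_congr rfl fun t _ => ?_
  rw [Finset.prod_range_succ']
  have e : ∏ j ∈ range N, (((ext (Fin.cons p.1 t : Fin (N + 1) → ℕ) (j + 1)).choose
        (ext (Fin.cons p.1 t : Fin (N + 1) → ℕ) (j + 1 + 1)) : ℕ) : ℚ) *
        (w (i + (j + 1))) ^ (ext (Fin.cons p.1 t : Fin (N + 1) → ℕ) (j + 1)) =
      ∏ j ∈ range N, (((ext t j).choose (ext t (j + 1)) : ℕ) : ℚ) *
        (w (i + 1 + j)) ^ (ext t j) := by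
    refine Finset.prod_congr rfl fun j _ => ?_
    rw [ext_cons_succ, ext_cons_succ]
    congr 3
    omega
  rw [e, ext_cons_zero, ext_cons_succ, add_zero]
  ring

/-- the power series `∑_{m ≥ 1} w_i w_{i+1} ... w_{i+m-1} x^m` -/
noncomputable def W (w : ℕ → ℚ) (i : ℕ) : PowerSeries ℚ :=
  PowerSeries.mk fun m => if m = 0 then 0 else ∏ j ∈ range m, w (i + j)

theorem W_eq (w : ℕ → ℚ) (i : ℕ) :
    W w i = PowerSeries.C (w i) * PowerSeries.X * (1 + W w (i + 1)) := by
  ext m
  rw [mul_assoc, PowerSeries.coeff_C_mul]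
  cases m with
  | zero => simp [W]
  | succ m =>
    rw [PowerSeries.coeff_succ_X_mul]
    cases m with
    | zero => simp [W]
    | succ m =>
      simp only [W, PowerSeries.coeff_mk, map_add, PowerSeries.coeff_one]
      rw [if_neg (by omega), if_neg (by omega), if_neg (by omega)]
      rw [Finset.prod_range_succ' _ (m + 1), zero_add, add_zero, mul_comm]
      congr 1
      refine Finset.prod_congr rfl fun j _ => ?_
      congr 1
      ring

theorem one_add_W_pow (w : ℕ → ℚ) (i k m : ℕ) :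
    PowerSeries.coeff m ((1 + W w i) ^ k) =
      ∑ p ∈ antidiagonal m, ((k.choose p.1 : ℕ) : ℚ) * (w i) ^ p.1 *
        PowerSeries.coeff p.2 ((1 + W w (i + 1)) ^ p.1) := by
  have h1 : ∀ l : ℕ, PowerSeries.coeff m ((W w i) ^ l * ((k.choose l : ℕ) : PowerSeries ℚ)) =
      if l ≤ m then ((k.choose l : ℕ) : ℚ) * (w i) ^ l *
        PowerSeries.coeff (m - l) ((1 + W w (i + 1)) ^ l) else 0 := by
    intro l
    have e : (W w i) ^ l * ((k.choose l : ℕ) : PowerSeries ℚ) =
        PowerSeries.C (((k.choose l : ℕ) : ℚ) * (w i) ^ l) *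
          (PowerSeries.X ^ l * (1 + W w (i + 1)) ^ l) := by
      conv_lhs => rw [W_eq]
      rw [map_mul, map_pow, map_natCast, mul_pow, mul_pow]
      generalize (1 + W w (i + 1)) ^ l = z
      ring
    rw [e, PowerSeries.coeff_C_mul, PowerSeries.coeff_X_pow_mul']
    split_ifs <;> simp
  rw [add_comm 1 (W w i), add_pow]
  simp only [one_pow, mul_one, map_sum, h1]
  rw [Finset.Nat.sum_antidiagonal_eq_sum_range_succ_mk]
  simp only
  -- both sums are over `l`; outside the common range the terms vanish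
  have h2 : ∑ l ∈ range (k + 1), (if l ≤ m then ((k.choose l : ℕ) : ℚ) * (w i) ^ l *
        PowerSeries.coeff (m - l) ((1 + W w (i + 1)) ^ l) else 0) =
      ∑ l ∈ range (k + m + 1), (if l ≤ m then ((k.choose l : ℕ) : ℚ) * (w i) ^ l *
        PowerSeries.coeff (m - l) ((1 + W w (i + 1)) ^ l) else 0) := by
    refine Finset.sum_subset (fun x hx => by simp only [mem_range] at hx ⊢; omega) ?_
    intro x _ hx
    simp only [mem_range, not_lt] at hx
    rw [Nat.choose_eq_zero_of_lt (by omega)]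
    simp
  have h3 : ∑ l ∈ range (m + 1), ((k.choose l : ℕ) : ℚ) * (w i) ^ l *
        PowerSeries.coeff (m - l) ((1 + W w (i + 1)) ^ l) =
      ∑ l ∈ range (k + m + 1), (if l ≤ m then ((k.choose l : ℕ) : ℚ) * (w i) ^ l *
        PowerSeries.coeff (m - l) ((1 + W w (i + 1)) ^ l) else 0) := by
    have : ∑ l ∈ range (m + 1), ((k.choose l : ℕ) : ℚ) * (w i) ^ l *
        PowerSeries.coeff (m - l) ((1 + W w (i + 1)) ^ l) =
        ∑ l ∈ range (m + 1), (if l ≤ m then ((k.choose l : ℕ) : ℚ) * (w i) ^ l *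
        PowerSeries.coeff (m - l) ((1 + W w (i + 1)) ^ l) else 0) := by
      refine Finset.sum_congr rfl fun l hl => ?_
      rw [mem_range] at hl
      rw [if_pos (by omega)]
    rw [this]
    refine Finset.sum_subset (fun x hx => by simp only [mem_range] at hx ⊢; omega) ?_
    intro x _ hx
    simp only [mem_range, not_lt] at hx
    rw [if_neg (by omega)]
  rw [h2, h3]

theorem T_eq (w : ℕ → ℚ) (N : ℕ) : ∀ i k m : ℕ, (m ≤ N ∨ k = 0) →
    T w N i k m = PowerSeries.coeff m ((1 + W w i) ^ k) := by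
  induction N with
  | zero =>
    intro i k m h
    have hW : PowerSeries.constantCoeff (W w i) = 0 := by simp [W]
    rcases Nat.eq_zero_or_pos m with hm | hm
    · subst hm
      rw [PowerSeries.coeff_zero_eq_constantCoeff_apply, map_pow, map_add, hW]
      simp [T, ext]
    · have hk : k = 0 := by omega
      subst hk
      obtain ⟨m, rfl⟩ := Nat.exists_eq_succ_of_ne_zero hm.ne'
      simp [T, PowerSeries.coeff_one]
  | succ N ih =>
    intro i k m h
    rw [T_succ, one_add_W_pow]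
    refine Finset.sum_congr rfl fun p hp => ?_
    rw [HasAntidiagonal.mem_antidiagonal] at hp
    by_cases h0 : p.1 = 0
    · rw [ih _ _ _ (Or.inr h0)]
    · rcases h with h | h
      · rw [ih _ _ _ (Or.inl (by omega))]
      · rw [h, Nat.choose_eq_zero_of_lt (by omega)]
        simp

theorem part_eq_ext {n : ℕ} (l : Fin n → ℕ) (j : ℕ) : part l (1 + j) = ext l j := by
  unfold part ext
  have : 1 + j - 1 = j := by omega
  by_cases h : j < n
  · rw [dif_pos (by omega), dif_pos h]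
    congr 1
    exact Fin.ext this
  · rw [dif_neg (by omega), dif_neg h]

theorem C_mul_weight (w : ℕ → ℚ) {n : ℕ} (l : Fin n → ℕ) :
    (C l : ℚ) * weight w l =
      ∏ j ∈ range n, (((ext l j).choose (ext l (j + 1)) : ℕ) : ℚ) * (w (1 + j)) ^ (ext l j) := by
  have hI : Finset.Icc 1 n = Finset.Ico 1 (n + 1) := by
    ext x
    simp only [Finset.mem_Icc, Finset.mem_Ico]
    omega
  unfold C weight
  rw [Nat.cast_prod, ← Finset.prod_mul_distrib, hI, Finset.prod_Ico_eq_prod_range]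
  have : n + 1 - 1 = n := by omega
  rw [this]
  refine Finset.prod_congr rfl fun j _ => ?_
  rw [add_assoc, part_eq_ext, part_eq_ext]

theorem sum_Lam (w g : ℕ → ℚ) (n : ℕ) (hn : 0 < n) :
    ∑ l ∈ Lam n, g (part l 1) * (C l : ℚ) * weight w l =
      ∑ k ∈ range (n + 1), g k * PowerSeries.coeff n ((W w 1) ^ k) := by
  obtain ⟨N, rfl⟩ : ∃ N, n = N + 1 := ⟨n - 1, by omega⟩
  -- remove the monotonicity filter
  have h1 : ∑ l ∈ Lam (N + 1), g (part l 1) * (C l : ℚ) * weight w l =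
      ∑ l ∈ Finset.Nat.antidiagonalTuple (N + 1) (N + 1), g (ext l 0) *
        ∏ j ∈ range (N + 1), (((ext l j).choose (ext l (j + 1)) : ℕ) : ℚ) *
          (w (1 + j)) ^ (ext l j) := by
    have h2 : ∀ l : Fin (N + 1) → ℕ, g (part l 1) * (C l : ℚ) * weight w l = g (ext l 0) *
        ∏ j ∈ range (N + 1), (((ext l j).choose (ext l (j + 1)) : ℕ) : ℚ) *
          (w (1 + j)) ^ (ext l j) := by
      intro l
      rw [mul_assoc, C_mul_weight]
      congr 2
    simp only [h2]
    refine Finset.sum_subset (Finset.filter_subset _ _) ?_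
    intro l hl hnot
    have hnm : ¬ ∀ i j : Fin (N + 1), i ≤ j → l j ≤ l i := fun h =>
      hnot (Finset.mem_filter.mpr ⟨hl, h⟩)
    -- some consecutive pair increases
    have hex : ∃ j < N + 1, ext l j < ext l (j + 1) := by
      by_contra hcon
      push Not at hcon
      apply hnm
      have key : ∀ d i : ℕ, i + d < N + 1 → ext l (i + d) ≤ ext l i := by
        intro d
        induction d with
        | zero => intro i _; exact le_rfl
        | succ d ihd =>
          intro i hi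
          exact (hcon (i + d) (by omega)).trans (ihd i (by omega))
      intro i j hij
      have hij' : (i : ℕ) ≤ j := hij
      have := key ((j : ℕ) - i) i (by have := j.2; omega)
      rw [show (i : ℕ) + (j - i) = j by omega] at this
      unfold ext at this
      rwa [dif_pos j.2, dif_pos i.2] at this
    obtain ⟨j, hj, hlt⟩ := hex
    rw [Finset.prod_eq_zero (Finset.mem_range.mpr hj), mul_zero]
    rw [Nat.choose_eq_zero_of_lt hlt]
    simp
  rw [h1, sum_antidiagonalTuple_succ, Finset.Nat.sum_antidiagonal_eq_sum_range_succ_mk]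
  refine Finset.sum_congr rfl fun k hk => ?_
  rw [mem_range] at hk
  simp only
  have h3 : ∀ t : Fin N → ℕ, g (ext (Fin.cons k t : Fin (N + 1) → ℕ) 0) *
      ∏ j ∈ range (N + 1), (((ext (Fin.cons k t : Fin (N + 1) → ℕ) j).choose
        (ext (Fin.cons k t : Fin (N + 1) → ℕ) (j + 1)) : ℕ) : ℚ) *
          (w (1 + j)) ^ (ext (Fin.cons k t : Fin (N + 1) → ℕ) j) =
      g k * (w 1) ^ k * (((k.choose (ext t 0) : ℕ) : ℚ) *
        ∏ j ∈ range N, (((ext t j).choose (ext t (j + 1)) : ℕ) : ℚ) *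
          (w (2 + j)) ^ (ext t j)) := by
    intro t
    rw [Finset.prod_range_succ']
    have e : ∏ j ∈ range N, (((ext (Fin.cons k t : Fin (N + 1) → ℕ) (j + 1)).choose
        (ext (Fin.cons k t : Fin (N + 1) → ℕ) (j + 1 + 1)) : ℕ) : ℚ) *
        (w (1 + (j + 1))) ^ (ext (Fin.cons k t : Fin (N + 1) → ℕ) (j + 1)) =
      ∏ j ∈ range N, (((ext t j).choose (ext t (j + 1)) : ℕ) : ℚ) *
        (w (2 + j)) ^ (ext t j) := by
      refine Finset.prod_congr rfl fun j _ => ?_
      rw [ext_cons_succ, ext_cons_succ]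
      congr 3
      omega
    rw [e, ext_cons_zero, ext_cons_succ, add_zero]
    ring
  simp only [h3]
  rw [← Finset.mul_sum]
  have h4 : (∑ t ∈ Finset.Nat.antidiagonalTuple N (N + 1 - k), (((k.choose (ext t 0) : ℕ) : ℚ) *
        ∏ j ∈ range N, (((ext t j).choose (ext t (j + 1)) : ℕ) : ℚ) *
          (w (2 + j)) ^ (ext t j))) = T w N 2 k (N + 1 - k) := rfl
  rw [h4, T_eq w N 2 k (N + 1 - k) (by omega)]
  rw [W_eq w 1, mul_pow, mul_pow, ← map_pow, mul_assoc (PowerSeries.C (w 1 ^ k)),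
    PowerSeries.coeff_C_mul, PowerSeries.coeff_X_pow_mul', if_pos (by omega)]
  ring

/-! ### The generating function identity -/

theorem sum_mul_sq {R : Type*} [CommRing R] (Z : R) (N : ℕ) :
    (∑ k ∈ range N, (1 + (k : R)) * Z ^ k) * (1 - Z) ^ 2 =
      1 - ((N : R) + 1) * Z ^ N + (N : R) * Z ^ (N + 1) := by
  induction N with
  | zero => simp
  | succ N ih =>
    rw [Finset.sum_range_succ, add_mul, ih]
    push_cast
    ring

theorem coeff_sum (Z R : PowerSeries ℚ) (hZ : PowerSeries.constantCoeff Z = 0)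
    (hR : (1 - Z) ^ 2 * R = 1) (n : ℕ) :
    ∑ k ∈ range (n + 1), (1 + (k : ℚ)) * PowerSeries.coeff n (Z ^ k) = PowerSeries.coeff n R := by
  have h1 : ∑ k ∈ range (n + 1), (1 + (k : ℚ)) * PowerSeries.coeff n (Z ^ k) =
      PowerSeries.coeff n (∑ k ∈ range (n + 1), (1 + (k : PowerSeries ℚ)) * Z ^ k) := by
    rw [map_sum]
    refine Finset.sum_congr rfl fun k _ => ?_
    have : (1 + (k : PowerSeries ℚ)) = PowerSeries.C (1 + (k : ℚ)) := by simp
    rw [this, PowerSeries.coeff_C_mul]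
  obtain ⟨Y, hY⟩ : PowerSeries.X ∣ Z := PowerSeries.X_dvd_iff.mpr hZ
  have h2 : (∑ k ∈ range (n + 1), (1 + (k : PowerSeries ℚ)) * Z ^ k) =
      R + PowerSeries.X ^ (n + 1) * (Y ^ (n + 1) * (- (((n + 1 : ℕ) : PowerSeries ℚ) + 1) +
        ((n + 1 : ℕ) : PowerSeries ℚ) * Z) * R) := by
    have h3 := sum_mul_sq Z (n + 1)
    calc (∑ k ∈ range (n + 1), (1 + (k : PowerSeries ℚ)) * Z ^ k)
        = ((∑ k ∈ range (n + 1), (1 + (k : PowerSeries ℚ)) * Z ^ k) * (1 - Z) ^ 2) * R := by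
          rw [mul_assoc, hR, mul_one]
      _ = (1 - (((n + 1 : ℕ) : PowerSeries ℚ) + 1) * Z ^ (n + 1) +
            ((n + 1 : ℕ) : PowerSeries ℚ) * Z ^ (n + 1 + 1)) * R := by rw [h3]
      _ = R + Z ^ (n + 1) * ((- (((n + 1 : ℕ) : PowerSeries ℚ) + 1) +
        ((n + 1 : ℕ) : PowerSeries ℚ) * Z) * R) := by ring
      _ = _ := by
          conv_lhs => rw [hY]
          conv_rhs => rw [hY]
          rw [mul_pow]
          ring
  rw [h1, h2, map_add, PowerSeries.coeff_X_pow_mul', if_neg (by omega), add_zero]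

open PowerSeries in
/-- If `(1 - 2x) F' = c F`, then the coefficients `H_m` of `F ^ 2` satisfy
`(m + 1) H_{m+1} = (2 m + 2 c) H_m`. -/
theorem sq_coeff (F : PowerSeries ℚ) (c : ℚ)
    (hF : ∀ m : ℕ, ((m : ℚ) + 1) * PowerSeries.coeff (m + 1) F =
      (2 * m + c) * PowerSeries.coeff m F) (m : ℕ) :
    ((m : ℚ) + 1) * PowerSeries.coeff (m + 1) (F ^ 2) =
      (2 * m + 2 * c) * PowerSeries.coeff m (F ^ 2) := by
  have key : ∀ G : PowerSeries ℚ, ∀ c : ℚ,
      (∀ m : ℕ, ((m : ℚ) + 1) * PowerSeries.coeff (m + 1) G =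
        (2 * m + c) * PowerSeries.coeff m G) ↔
      (1 - 2 * PowerSeries.X) * (PowerSeries.derivative ℚ G) = PowerSeries.C c * G := by
    intro G c
    rw [PowerSeries.ext_iff]
    refine forall_congr' fun m => ?_
    rw [sub_mul, one_mul, map_sub, PowerSeries.coeff_derivative, PowerSeries.coeff_C_mul]
    have h2 : (2 : PowerSeries ℚ) = PowerSeries.C 2 := (map_ofNat _ 2).symm
    rw [mul_assoc, h2, PowerSeries.coeff_C_mul]
    cases m with
    | zero => simp
    | succ m =>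
      rw [PowerSeries.coeff_succ_X_mul, PowerSeries.coeff_derivative]
      push_cast
      constructor <;> intro h <;> linarith
  have h1 := (key F c).mp hF
  refine (key (F ^ 2) (2 * c)).mpr ?_ m
  rw [pow_two, Derivation.leibniz, smul_eq_mul, map_mul]
  have h2 : (PowerSeries.C (2 : ℚ)) = 2 := map_ofNat _ 2
  rw [h2]
  linear_combination 2 * F * h1

end Pool.Agent.Lib_MP_62fa17_nt
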