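import Mathlib

/-!
# Shared definitions for the two weighted partition sums of MP_62fa17_nt

The sums run over the set `Lam n` of weakly decreasing `n`-tuples of nonnegative integers with
sum `n`.
-/

namespace Pool.Agent.Lib_MP_62fa17_nt

/-- `Lam n` is the set `Λ_n` of `n`-tuples `(λ_1, ..., λ_n)` of nonnegative integers with
`λ_1 ≥ λ_2 ≥ ... ≥ λ_n ≥ 0` and `λ_1 + ... + λ_n = n`.  A tuple is a function `Fin n → ℕ`. -/
def Lam (n : ℕ) : Finset (Fin n → ℕ) :=
  (Finset.Nat.antidiagonalTuple n n).filter (fun l => ∀ i j : Fin n, i ≤ j → l j ≤ l i)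

/-- `part l i` is the `i`-th entry `λ_i` of the tuple (for `1 ≤ i ≤ n`), and `0` for `i = n + 1`. -/
def part {n : ℕ} (l : Fin n → ℕ) (i : ℕ) : ℕ :=
  if h : i - 1 < n then l ⟨i - 1, h⟩ else 0

/-- `C l` is the product over `i = 1, ..., n` of the binomial coefficients `λ_i` choose `λ_{i+1}`,
where `λ_{n+1} = 0`. -/
def C {n : ℕ} (l : Fin n → ℕ) : ℕ :=
  ∏ i ∈ Finset.Icc 1 n, (part l i).choose (part l (i + 1))

end Pool.Agent.Lib_MP_62fa17_nt
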